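import Pool.Agent.H389R2.NS.Pair1

/-!
# Project SN: the weight of the Fourier sets which meet one block or two blocks
-/

set_option autoImplicit false

namespace Pool.Agent.Y286.SN

open H974 H389NS Finset

section Abstract

variable {E : Type*} [DecidableEq E]

theorem ok_hp : Ok (hp : E → ℝ) := fun _ => ⟨by norm_num [hp], by norm_num [hp]⟩

/-- average over the configuration in `B` -/
noncomputable def av (B : Finset E) (f : Finset E → ℝ) (F : Finset E) : ℝ :=
  Ex hp B (fun Y => f (F \ B ∪ Y))

theorem Ex_chi (T B : Finset E) :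
    Ex hp B (chi T) = if Disjoint T B then 1 else 0 := by
  by_cases h : Disjoint T B
  · rw [if_pos h]
    have : ∀ F, F ⊆ B → chi T F = 1 := by
      intro F hF
      have h1 : F ∩ T = ∅ := by
        rw [← Finset.disjoint_iff_inter_eq_empty]
        exact (h.mono_right hF).symm
      unfold chi
      rw [h1]
      simp
    rw [Ex_congr this, Ex_const]
  · rw [if_neg h]
    rw [Finset.not_disjoint_iff] at h
    obtain ⟨a, haT, haB⟩ := h
    have hB : B = insert a (B.erase a) := (Finset.insert_erase haB).symm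
    have ha : a ∉ B.erase a := Finset.notMem_erase a B
    rw [hB, Ex_insert hp ha]
    have : ∀ F, F ⊆ B.erase a → chi T (insert a F) = (-1) * chi T F := by
      intro F hF
      have haF : a ∉ F := fun h => ha (hF h)
      unfold chi
      rw [Finset.insert_inter_of_mem haT, Finset.card_insert_of_notMem, pow_succ]
      · ring
      · intro h
        exact haF (Finset.mem_inter.mp h).1
    rw [Ex_congr this, Ex_mul_left]
    simp only [hp]
    ring

theorem chi_union {T F G : Finset E} (h : Disjoint F G) : chi T (F ∪ G) = chi T F * chi T G := by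
  unfold chi
  rw [Finset.union_inter_distrib_right, Finset.card_union_of_disjoint, pow_add]
  exact h.mono Finset.inter_subset_left Finset.inter_subset_left

theorem wal_av {V B : Finset E} (hB : B ⊆ V) (f : Finset E → ℝ) (T : Finset E) :
    wal V (av B f) T = if Disjoint T B then wal V f T else 0 := by
  have hV : V = (V \ B) ∪ B := (Finset.sdiff_union_of_subset hB).symm
  have hd : Disjoint (V \ B) B := Finset.sdiff_disjoint
  have h1 : wal V (av B f) T = Ex hp (V \ B) (fun G => Ex hp B (fun Y => f (G ∪ Y)) * chi T G)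
      * Ex hp B (chi T) := by
    unfold wal
    conv_lhs => rw [hV]
    rw [Ex_union hd, ← Ex_mul_right]
    refine Ex_congr fun G hG => ?_
    rw [← Ex_mul_left]
    refine Ex_congr fun Y hY => ?_
    have hGY : Disjoint G Y := hd.mono hG hY
    rw [chi_union hGY]
    have hGB : (G ∪ Y) \ B = G := by
      rw [Finset.union_sdiff_distrib, Finset.sdiff_eq_empty_iff_subset.mpr hY,
        Finset.union_empty, Finset.sdiff_eq_self_iff_disjoint.mpr (hd.mono_left hG)]
    unfold av
    rw [hGB]
    ring
  rw [h1, Ex_chi]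
  by_cases h : Disjoint T B
  · rw [if_pos h, if_pos h, mul_one]
    unfold wal
    conv_rhs => rw [hV]
    rw [Ex_union hd]
    refine Ex_congr fun G hG => ?_
    rw [← Ex_mul_right]
    refine Ex_congr fun Y hY => ?_
    have hGY : Disjoint G Y := hd.mono hG hY
    rw [chi_union hGY]
    have h3 : Y ∩ T = ∅ := by
      rw [← Finset.disjoint_iff_inter_eq_empty]
      exact (h.mono_right hY).symm
    have h4 : chi T Y = 1 := by
      unfold chi
      rw [h3]; simp
    rw [h4]
    ring
  · rw [if_neg h, if_neg h, mul_zero]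

theorem wal_sub (V : Finset E) (f g : Finset E → ℝ) (T : Finset E) :
    wal V (fun F => f F - g F) T = wal V f T - wal V g T := by
  unfold wal
  rw [← Ex_sub]
  refine Ex_congr fun F _ => by ring

theorem wal_add (V : Finset E) (f g : Finset E → ℝ) (T : Finset E) :
    wal V (fun F => f F + g F) T = wal V f T + wal V g T := by
  unfold wal
  rw [← Ex_add]
  refine Ex_congr fun F _ => by ring

theorem av_bound (B : Finset E) {f : Finset E → ℝ} (hf : ∀ F, |f F| ≤ 1) (F : Finset E) :
    |av B f F| ≤ 1 := by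
  unfold av
  rw [abs_le]
  constructor
  · have h1 : Ex (hp : E → ℝ) B (fun _ => (-1 : ℝ)) ≤ Ex hp B (fun Y => f (F \ B ∪ Y)) :=
      Ex_mono ok_hp (fun Y _ => (abs_le.mp (hf _)).1)
    rwa [Ex_const] at h1
  · exact Ex_le_of_le ok_hp (fun Y _ => (abs_le.mp (hf _)).2)

/-- the common estimate -/
theorem est {V : Finset E} {g : Finset E → ℝ} {A : Finset E → Prop} {c x : ℝ} (hc : 0 ≤ c)
    (h0 : 0 ≤ x) (h1 : x ≤ 1)
    (hA : ∀ F, F ⊆ V → ¬ A F → g F = 0) (hg : ∀ F, |g F| ≤ c) :
    ∑ T ∈ V.powerset, (wal V g T) ^ 2 * x ^ T.card ≤ c ^ 2 * P2 (fun _ => x) V A A := by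
  have e1 : ∑ T ∈ V.powerset, (wal V g T) ^ 2 * x ^ T.card
      = E2 (fun _ => x) V (fun F F' => g F * g F') := by
    rw [E2_wal]
    refine Finset.sum_congr rfl fun T _ => ?_
    rw [Finset.prod_const, sq]
  have e2 : c ^ 2 * P2 (fun _ => x) V A A
      = E2 (fun _ => x) V (fun F F' => (c * ind (A F)) * (c * ind (A F'))) := by
    rw [E2_wal]
    unfold P2
    rw [E2_wal, Finset.mul_sum]
    refine Finset.sum_congr rfl fun T _ => ?_
    have : wal V (fun F => c * ind (A F)) T = c * wal V (fun F => ind (A F)) T := by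
      unfold wal
      rw [← Ex_mul_left]
      refine Ex_congr fun F _ => by ring
    rw [this]
    ring
  rw [e1, e2]
  refine E2_mono (fun _ _ => ⟨h0, h1⟩) fun F F' hF hF' => ?_
  have hb : ∀ F, F ⊆ V → |g F| ≤ c * ind (A F) := by
    intro F hF
    by_cases h : A F
    · rw [ind_of h, mul_one]; exact hg F
    · rw [hA F hF h, ind_not_of h]; simp
  calc g F * g F' ≤ |g F * g F'| := le_abs_self _
    _ = |g F| * |g F'| := abs_mul _ _
    _ ≤ (c * ind (A F)) * (c * ind (A F')) :=
      mul_le_mul (hb F hF) (hb F' hF') (abs_nonneg _) ((abs_nonneg _).trans (hb F hF))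

theorem one_aux (V B : Finset E) (f : Finset E → ℝ) (A : Finset E → Prop) (x : ℝ)
    (hB : B ⊆ V) (hf : ∀ F, |f F| ≤ 1) (h0 : 0 ≤ x) (h1 : x ≤ 1)
    (hA : ∀ F, F ⊆ V → ¬ A F → ∀ Y Y', Y ⊆ B → Y' ⊆ B → f (F \ B ∪ Y) = f (F \ B ∪ Y')) :
    ∑ T ∈ V.powerset.filter (fun T => ¬ Disjoint T B), (wal V f T) ^ 2 * x ^ T.card ≤
      4 * P2 (fun _ => x) V A A := by
  have h2 : ∑ T ∈ V.powerset.filter (fun T => ¬ Disjoint T B), (wal V f T) ^ 2 * x ^ T.card
      = ∑ T ∈ V.powerset, (wal V (fun F => f F - av B f F) T) ^ 2 * x ^ T.card := by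
    rw [Finset.sum_filter]
    refine Finset.sum_congr rfl fun T _ => ?_
    rw [wal_sub, wal_av hB]
    by_cases h : Disjoint T B
    · simp [h]
    · simp [h]
  rw [h2]
  have h3 := est (V := V) (g := fun F => f F - av B f F) (A := A) (c := 2) (by norm_num) h0 h1 ?_ ?_
  · norm_num at h3 ⊢
    exact h3
  · intro F hF hn
    have h4 : f F = f (F \ B ∪ (F ∩ B)) := by rw [Finset.sdiff_union_inter]
    have h5 : av B f F = Ex (hp : E → ℝ) B (fun _ => f F) := by
      unfold av
      refine Ex_congr fun Y hY => ?_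
      rw [h4]
      exact hA F hF hn Y (F ∩ B) hY Finset.inter_subset_right
    rw [Ex_const] at h5
    show f F - av B f F = 0
    rw [h5, sub_self]
  · intro F
    have h4 := hf F
    have h5 := av_bound B hf F
    calc |f F - av B f F| ≤ |f F| + |av B f F| := abs_sub _ _
      _ ≤ 2 := by linarith

/-- the configuration `F` with the part in `B` replaced by `Y` and the part in `B'` by `Z` -/
def rp (B B' F Y Z : Finset E) : Finset E := (F \ (B ∪ B')) ∪ Y ∪ Z

theorem pair_aux (V B B' : Finset E) (f : Finset E → ℝ) (A : Finset E → Prop)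
    (x : ℝ) (hB : B ⊆ V) (hB' : B' ⊆ V) (hd : Disjoint B B') (hf : ∀ F, |f F| ≤ 1)
    (h0 : 0 ≤ x) (h1 : x ≤ 1)
    (hA : ∀ F, F ⊆ V → ¬ A F →
      (∀ Y Y' Z, Y ⊆ B → Y' ⊆ B → Z ⊆ B' → f (rp B B' F Y Z) = f (rp B B' F Y' Z)) ∨
      (∀ Y Z Z', Y ⊆ B → Z ⊆ B' → Z' ⊆ B' → f (rp B B' F Y Z) = f (rp B B' F Y Z'))) :
    ∑ T ∈ V.powerset.filter (fun T => ¬ Disjoint T B ∧ ¬ Disjoint T B'),
      (wal V f T) ^ 2 * x ^ T.card ≤ 16 * P2 (fun _ => x) V A A := by
  have h2 : ∑ T ∈ V.powerset.filter (fun T => ¬ Disjoint T B ∧ ¬ Disjoint T B'),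
        (wal V f T) ^ 2 * x ^ T.card
      = ∑ T ∈ V.powerset,
        (wal V (fun F => (f F - av B f F) - (av B' f F - av B (av B' f) F)) T) ^ 2 * x ^ T.card := by
    rw [Finset.sum_filter]
    refine Finset.sum_congr rfl fun T _ => ?_
    rw [wal_sub, wal_sub, wal_sub, wal_av hB, wal_av hB, wal_av hB']
    by_cases h : Disjoint T B <;> by_cases h' : Disjoint T B' <;> simp [h, h']
  rw [h2]
  have h3 := est (V := V) (g := fun F => (f F - av B f F) - (av B' f F - av B (av B' f) F))
    (A := A) (c := 4) (by norm_num) h0 h1 ?_ ?_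
  · norm_num at h3 ⊢
    exact h3
  · intro F hF hn
    have r1 : ∀ Y, Y ⊆ B → F \ B ∪ Y = rp B B' F Y (F ∩ B') := by
      intro Y hY
      unfold rp
      ext a
      simp only [Finset.mem_union, Finset.mem_sdiff, Finset.mem_inter]
      have hd' := Finset.disjoint_left.mp hd
      by_cases ha : a ∈ B
      · have := hd' ha
        tauto
      · by_cases ha' : a ∈ B' <;> tauto
    have r2 : ∀ Z, Z ⊆ B' → F \ B' ∪ Z = rp B B' F (F ∩ B) Z := by
      intro Z hZ
      unfold rp
      ext a
      simp only [Finset.mem_union, Finset.mem_sdiff, Finset.mem_inter]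
      have hd' := Finset.disjoint_left.mp hd
      by_cases ha : a ∈ B
      · have := hd' ha
        tauto
      · by_cases ha' : a ∈ B' <;> tauto
    have r3 : ∀ Y Z, Y ⊆ B → Z ⊆ B' →
        (F \ B ∪ Y) \ B' ∪ Z = rp B B' F Y Z := by
      intro Y Z hY hZ
      unfold rp
      ext a
      simp only [Finset.mem_union, Finset.mem_sdiff]
      have hd' := Finset.disjoint_left.mp hd
      have hY' := @hY a
      by_cases ha : a ∈ B
      · have := hd' ha
        tauto
      · by_cases ha' : a ∈ B' <;> tauto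
    have r4 : F = rp B B' F (F ∩ B) (F ∩ B') := by
      rw [← r1 _ Finset.inter_subset_right, Finset.sdiff_union_inter]
    have a1 : av B f F = Ex (hp : E → ℝ) B (fun Y => f (rp B B' F Y (F ∩ B'))) := by
      unfold av
      exact Ex_congr fun Y hY => by rw [r1 Y hY]
    have a2 : av B' f F = Ex (hp : E → ℝ) B' (fun Z => f (rp B B' F (F ∩ B) Z)) := by
      unfold av
      exact Ex_congr fun Z hZ => by rw [r2 Z hZ]
    have a3 : av B (av B' f) F = Ex (hp : E → ℝ) B (fun Y => Ex (hp : E → ℝ) B'
        (fun Z => f (rp B B' F Y Z))) := by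
      unfold av
      exact Ex_congr fun Y hY => Ex_congr fun Z hZ => by rw [r3 Y Z hY hZ]
    show (f F - av B f F) - (av B' f F - av B (av B' f) F) = 0
    rcases hA F hF hn with h | h
    · have b1 : av B f F = f F := by
        rw [a1, Ex_congr (g := fun _ => f F), Ex_const]
        intro Y hY
        conv_rhs => rw [r4]
        exact h Y (F ∩ B) (F ∩ B') hY Finset.inter_subset_right Finset.inter_subset_right
      have b2 : av B (av B' f) F = av B' f F := by
        rw [a3, a2, Ex_congr (g := fun _ => Ex (hp : E → ℝ) B'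
          (fun Z => f (rp B B' F (F ∩ B) Z))), Ex_const]
        intro Y hY
        refine Ex_congr fun Z hZ => ?_
        exact h Y (F ∩ B) Z hY Finset.inter_subset_right hZ
      rw [b1, b2]
      ring
    · have b1 : av B' f F = f F := by
        rw [a2, Ex_congr (g := fun _ => f F), Ex_const]
        intro Z hZ
        conv_rhs => rw [r4]
        exact h (F ∩ B) Z (F ∩ B') Finset.inter_subset_right hZ Finset.inter_subset_right
      have b2 : av B (av B' f) F = av B f F := by
        rw [a3, a1]
        refine Ex_congr fun Y hY => ?_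
        rw [Ex_congr (g := fun _ => f (rp B B' F Y (F ∩ B'))), Ex_const]
        intro Z hZ
        exact h Y Z (F ∩ B') hY hZ Finset.inter_subset_right
      rw [b1, b2]
      ring
  · intro F
    have h4 := hf F
    have h5 := av_bound B hf F
    have h6 := av_bound B' hf F
    have h7 := av_bound B (av_bound B' hf) F
    calc |(f F - av B f F) - (av B' f F - av B (av B' f) F)|
        ≤ |f F - av B f F| + |av B' f F - av B (av B' f) F| := abs_sub _ _
      _ ≤ (|f F| + |av B f F|) + (|av B' f F| + |av B (av B' f) F|) :=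
        add_le_add (abs_sub _ _) (abs_sub _ _)
      _ ≤ 4 := by linarith

end Abstract

end Pool.Agent.Y286.SN
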