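import Pool.Agent.Y286.SN.Fou
import Pool.Agent.Y554.SN.Stm

/-!
# Project SN: S_ONE and S_PAIR
-/

set_option autoImplicit false

namespace Pool.Agent.Y286.SN

theorem one : Pool.Agent.Y554.SN.S_ONE := by
  intro V B f A x hB hf h0 h1 hA
  exact one_aux V B f A x hB hf h0 h1 hA

theorem pair : Pool.Agent.Y554.SN.S_PAIR := by
  intro V B B' f A x hB hB' hd hf h0 h1 hA
  exact pair_aux V B B' f A x hB hB' hd hf h0 h1 hA

end Pool.Agent.Y286.SN
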